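import Pool.Agent.T9h44.NK.SpecA
import Pool.Agent.T9h44.NK.SpecB

/-!
# Project NK (MP_727bc7_co), piece SS1
-/

set_option autoImplicit false

open Set
open scoped RealInnerProductSpace

namespace Pool.Agent.T9h89.NK

open Pool.Agent.T9h98.DC Pool.Agent.T9h44.NK

/-- algebra: the two relations force `κ v = κ w` -/
theorem alg (A p q : ℝ) (hA : 0 < A) (hp : -1 < p) (hp1 : p < 1) (h1 : A ^ 2 * (1 - p ^ 2) = 1 - q ^ 2)
    (h2 : A ^ 2 * (p - p ^ 2) + q ^ 2 = q) : p = q := by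
  have h3 : 0 < 1 - p ^ 2 := by nlinarith
  have h4 : 0 < 1 - q ^ 2 := by
    rw [← h1]
    positivity
  have h5 : q ≠ 1 := by
    rintro rfl
    norm_num at h4
  have h6 : (1 - q) * (p * (1 + q) - q * (1 + p)) = 0 := by
    have h7 : A ^ 2 * (p - p ^ 2) * (1 + p) = (q - q ^ 2) * (1 + p) := by
      rw [show A ^ 2 * (p - p ^ 2) = q - q ^ 2 by linarith]
    have h8 : A ^ 2 * (p - p ^ 2) * (1 + p) = p * (A ^ 2 * (1 - p ^ 2)) := by ring
    rw [h8, h1] at h7
    nlinarith
  rcases mul_eq_zero.1 h6 with h | h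
  · exact absurd (by linarith) h5
  · linarith

variable {d : ℕ} {P : Set (E (d + 1))}

theorem adj_symm (hF : S_FACES) (hP : IsPolytope P) {v w : E (d + 1)} (h : Adj P v w) :
    Adj P w v ∧ Vx P v ∧ Vx P w := by
  have hFP : FP P := hP.1
  have := (hF (d + 1) P hFP).2.2.2.2.2.2.2.2.1 v w h
  exact ⟨this.2.2.1, this.1, this.2.1⟩

/-- the other neighbour of `w` in a 2-face through `v, w, p` -/
theorem side (hF : S_FACES) (hTwo : S_TWO) (hP : IsPolytope P) {T : Set (E (d + 1))} (hT : IsFace P T)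
    (hT2 : dm T = 2) {v w p : E (d + 1)} (hvw : Adj P v w) (hvp : Adj P v p) (hwp : w ≠ p) (hvT : v ∈ T)
    (hwT : w ∈ T) (hpT : p ∈ T) :
    LinearIndependent ℝ ![w - v, p - v] ∧
    ∃ g, Adj P w g ∧ g ≠ v ∧ ∃ A B : ℝ, 0 < A ∧ g - w = A • (p - v) + B • (w - v) := by
  obtain ⟨hwv, hvx, hwx⟩ := adj_symm hF hP hvw
  -- at `v`
  obtain ⟨y, z, hyz, hy, hz, hyT, hzT, hli, hun, hcone, -, -⟩ := hTwo d P T v hP hvx hT hT2 hvT
  have h1 : LinearIndependent ℝ ![w - v, p - v] ∧
      ∀ x ∈ T, ∃ α β : ℝ, 0 ≤ α ∧ 0 ≤ β ∧ x - v = α • (w - v) + β • (p - v) := by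
    rcases hun w hvw hwT with h | h <;> rcases hun p hvp hpT with h' | h'
    · exact absurd (h.trans h'.symm) hwp
    · rw [h, h']
      exact ⟨hli, hcone⟩
    · rw [h, h']
      refine ⟨?_, ?_⟩
      · exact LinearIndependent.pair_symm_iff.1 hli
      · intro x hx
        obtain ⟨α, β, h1, h2, h3⟩ := hcone x hx
        exact ⟨β, α, h2, h1, by rw [h3]; exact add_comm _ _⟩
    · exact absurd (h.trans h'.symm) hwp
  refine ⟨h1.1, ?_⟩
  -- at `w`
  obtain ⟨y', z', hyz', hy', hz', hyT', hzT', hli', hun', -, -, -⟩ := hTwo d P T w hP hwx hT hT2 hwT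
  have h2 : ∃ g, Adj P w g ∧ g ≠ v ∧ g ∈ T ∧ LinearIndependent ℝ ![v - w, g - w] := by
    rcases hun' v hwv hvT with h | h
    · refine ⟨z', hz', ?_, hzT', ?_⟩
      · rw [h]
        exact hyz'.symm
      · rw [h]
        exact hli'
    · refine ⟨y', hy', ?_, hyT', ?_⟩
      · rw [h]
        exact hyz'
      · rw [h]
        exact LinearIndependent.pair_symm_iff.1 hli'
  obtain ⟨g, hg, hgv, hgT, hlig⟩ := h2
  obtain ⟨α, β, hα, hβ, hgeq⟩ := h1.2 g hgT
  have hgw : g - w = β • (p - v) + (α - 1) • (w - v) := by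
    have : g - w = (g - v) - (w - v) := by abel
    rw [this, hgeq, sub_smul, one_smul]
    abel
  refine ⟨g, hg, hgv, β, α - 1, ?_, hgw⟩
  rcases hβ.eq_or_lt with h | h
  · exfalso
    rw [← h, zero_smul, zero_add] at hgw
    rw [LinearIndependent.pair_iff] at hlig
    have := hlig (α - 1) 1 (by
      rw [hgw, one_smul, ← smul_add]
      simp)
    exact one_ne_zero this.2
  · exact h

theorem dist_inner {n : ℕ} {a b : E n} {s : ℝ} (h : dist a b = s) : ⟪b - a, b - a⟫ = s ^ 2 := by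
  rw [real_inner_self_eq_norm_sq, ← dist_eq_norm, dist_comm, h]

theorem sub_smul_self {n : ℕ} (X e : E n) (k : ℝ) :
    ⟪X - k • e, X - k • e⟫ = ⟪X, X⟫ - 2 * k * ⟪X, e⟫ + k ^ 2 * ⟪e, e⟫ := by
  rw [inner_sub_left, inner_sub_right, inner_sub_right, real_inner_smul_left, real_inner_smul_left,
    real_inner_smul_right, real_inner_smul_right, real_inner_comm X e]
  ring

theorem edge (hF : S_FACES) (hTwo : S_TWO) (hP : IsPolytope P) {s : ℝ} {κ : E (d + 1) → ℝ}
    (hS : Simp P s κ) {v w p q : E (d + 1)} (hvw : Adj P v w) (hvp : Adj P v p) (hvq : Adj P v q)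
    (hwp : w ≠ p) (hwq : w ≠ q) (hpq : p ≠ q) : κ v = κ w := by
  obtain ⟨hs, hdist, -, hang⟩ := hS
  obtain ⟨hwv, hvx, hwx⟩ := adj_symm hF hP hvw
  obtain ⟨iwp, T, hT, hT2, hvT, hwT, hpT⟩ := hang v w p hvw hvp hwp
  obtain ⟨iwq, T', hT', hT2', hvT', hwT', hqT'⟩ := hang v w q hvw hvq hwq
  obtain ⟨ipq, -⟩ := hang v p q hvp hvq hpq
  obtain ⟨hli, g, hg, hgv, A, B, hA, hgw⟩ := side hF hTwo hP hT hT2 hvw hvp hwp hvT hwT hpT
  obtain ⟨hli', g', hg', hgv', A', B', hA', hgw'⟩ := side hF hTwo hP hT' hT2' hvw hvq hwq hvT' hwT' hqT'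
  have s2 : 0 < s ^ 2 := by positivity
  have iww := dist_inner (hdist v w hvw)
  have ipp := dist_inner (hdist v p hvp)
  have iqq := dist_inner (hdist v q hvq)
  have igg := dist_inner (hdist w g hg)
  have igg' := dist_inner (hdist w g' hg')
  obtain ⟨ivg, -⟩ := hang w v g hwv hg hgv.symm
  obtain ⟨ivg', -⟩ := hang w v g' hwv hg' hgv'.symm
  have ipw : ⟪p - v, w - v⟫ = κ v * s ^ 2 := by rw [real_inner_comm, iwp]
  have iqw : ⟪q - v, w - v⟫ = κ v * s ^ 2 := by rw [real_inner_comm, iwq]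
  have iqp : ⟪q - v, p - v⟫ = κ v * s ^ 2 := by rw [real_inner_comm, ipq]
  -- relations
  have r1 : ∀ (r g : E (d + 1)) (A B : ℝ), ⟪r - v, w - v⟫ = κ v * s ^ 2 → ⟪r - v, r - v⟫ = s ^ 2 →
      g - w = A • (r - v) + B • (w - v) → ⟪v - w, g - w⟫ = κ w * s ^ 2 → ⟪g - w, g - w⟫ = s ^ 2 →
      B = -κ w - A * κ v ∧ A ^ 2 * (1 - κ v ^ 2) = 1 - κ w ^ 2 := by
    intro r g A B h1 h2 h3 h4 h5
    have h6 : v - w = -(w - v) := by abel
    rw [h6, h3, inner_neg_left, inner_add_right, real_inner_smul_right, real_inner_smul_right, iww,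
      real_inner_comm, h1] at h4
    have h7 : B = -κ w - A * κ v := by
      have : s ^ 2 * (A * κ v + B + κ w) = 0 := by linarith
      rcases mul_eq_zero.1 this with h | h
      · exact absurd h s2.ne'
      · linarith
    refine ⟨h7, ?_⟩
    rw [h3, inner_add_left, inner_add_right, inner_add_right, real_inner_smul_left,
      real_inner_smul_left, real_inner_smul_left, real_inner_smul_left, real_inner_smul_right,
      real_inner_smul_right, real_inner_smul_right, real_inner_smul_right, h2, h1, iww,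
      real_inner_comm, h1] at h5
    have h8 : s ^ 2 * (A ^ 2 + 2 * A * B * κ v + B ^ 2 - 1) = 0 := by linarith
    rcases mul_eq_zero.1 h8 with h | h
    · exact absurd h s2.ne'
    · rw [h7] at h
      linarith
  obtain ⟨b1, a1⟩ := r1 p g A B ipw ipp hgw ivg igg
  obtain ⟨b2, a2⟩ := r1 q g' A' B' iqw iqq hgw' ivg' igg'
  -- `|κ v| < 1`
  have hk : 0 < 1 - κ v ^ 2 := by
    have h1 : (p - v) - κ v • (w - v) ≠ 0 := by
      intro h
      rw [LinearIndependent.pair_iff] at hli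
      have := hli (-κ v) 1 (by rw [one_smul, neg_smul, ← h]; abel)
      exact one_ne_zero this.2
    have h2 : 0 < ⟪(p - v) - κ v • (w - v), (p - v) - κ v • (w - v)⟫ := real_inner_self_pos.2 h1
    rw [sub_smul_self, ipp, ipw, iww] at h2
    have h3 : 0 < s ^ 2 * (1 - κ v ^ 2) := by nlinarith
    exact pos_of_mul_pos_right h3 s2.le
  have hAA : A = A' := by
    have h1 : A ^ 2 = A' ^ 2 := mul_right_cancel₀ hk.ne' (by rw [a1, a2])
    exact (sq_eq_sq₀ hA.le hA'.le).1 h1
  subst hAA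
  have hBB : B = B' := by rw [b1, b2]
  subst hBB
  have hgg : g ≠ g' := by
    intro h
    have h1 : A • (p - v) = A • (q - v) := by
      have : A • (p - v) + B • (w - v) = A • (q - v) + B • (w - v) := by
        rw [← hgw, ← hgw', h]
      exact add_right_cancel this
    have h2 : p - v = q - v := smul_right_injective _ hA.ne' h1
    exact hpq (sub_left_injective h2)
  obtain ⟨igg2, -⟩ := hang w g g' hg hg' hgg
  rw [hgw, hgw', inner_add_left, inner_add_right, inner_add_right, real_inner_smul_left,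
    real_inner_smul_left, real_inner_smul_left, real_inner_smul_left, real_inner_smul_right,
    real_inner_smul_right, real_inner_smul_right, real_inner_smul_right, ipq, ipw, iwq, iww] at igg2
  have h9 : A ^ 2 * (κ v - κ v ^ 2) + κ w ^ 2 = κ w := by
    have h8 : s ^ 2 * (A ^ 2 * κ v + 2 * A * B * κ v + B ^ 2 - κ w) = 0 := by linarith
    rcases mul_eq_zero.1 h8 with h | h
    · exact absurd h s2.ne'
    · rw [b1] at h
      linarith
  exact alg A (κ v) (κ w) hA (by nlinarith) (by nlinarith) a1 h9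

/-- **SS1** -/
theorem ss1 : S_FACES → S_TWO → S_CONN → S_SS1 := by
  classical
  intro hF hTwo hConn d P s κ hP hS
  have hFP : FP P := hP.1
  obtain ⟨hs, hdist, hnb, hang⟩ := hS
  have hS' : Simp P s κ := ⟨hs, hdist, hnb, hang⟩
  -- edges
  have hedge : ∀ v w, Adj P v w → κ v = κ w := by
    intro v w hvw
    obtain ⟨hwv, hvx, hwx⟩ := adj_symm hF hP hvw
    obtain ⟨X, hXc, hX⟩ := hnb v hvx
    have hwX : w ∈ X := (hX w).2 hvw
    have h1 : 1 < (X.erase w).card := by
      rw [Finset.card_erase_of_mem hwX]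
      omega
    obtain ⟨p, hp, q, hq, hpq⟩ := Finset.one_lt_card.1 h1
    exact edge (d := d + 4) hF hTwo hP hS' hvw ((hX p).1 (Finset.mem_of_mem_erase hp))
      ((hX q).1 (Finset.mem_of_mem_erase hq)) (Finset.ne_of_mem_erase hp).symm
      (Finset.ne_of_mem_erase hq).symm hpq
  -- a vertex
  have hne : P.Nonempty := hP.2.mono interior_subset
  obtain ⟨v, hv⟩ := ((hF (d + 5) P hFP).2.2.2.2.1 hne).2
  have hall : ∀ w, Vx P w → κ w = κ v := by
    intro w hw
    exact hConn (d + 4) P hP {w | κ w = κ v} ⟨v, rfl, hv⟩ (by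
      intro a ha b _ hab
      have ha' : κ a = κ v := ha
      show κ b = κ v
      rw [← hedge a b hab, ha']) w hw
  refine ⟨κ v, ?_, hall⟩
  -- positivity
  obtain ⟨X, hXc, hX⟩ := hnb v hv
  have hsum : ∑ y ∈ X, (y - v) ≠ 0 := by
    obtain ⟨l, hl⟩ := hv.2 ⟨v, rfl⟩
    have hlt : ∀ y ∈ P, y ≠ v → l y < l v := by
      intro y hy hyv
      have hvm : v ∈ ({v} : Set (E (d + 5))) := rfl
      rw [hl] at hvm
      rcases (hvm.2 y hy).eq_or_lt with h | h
      · exfalso
        apply hyv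
        have : y ∈ ({v} : Set (E (d + 5))) := by
          rw [hl]
          exact ⟨hy, fun z hz => by rw [h]; exact hvm.2 z hz⟩
        exact this
      · exact h
    intro h0
    have h1 : l (∑ y ∈ X, (y - v)) < 0 := by
      rw [map_sum]
      apply Finset.sum_neg
      · intro y hy
        have hadj := (hX y).1 hy
        have hyx := (adj_symm hF hP hadj).2.2
        have hyP : y ∈ P := hyx.2.subset rfl
        rw [map_sub]
        linarith [hlt y hyP hadj.1.symm]
      · rw [← Finset.card_pos, hXc]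
        omega
    rw [h0, map_zero] at h1
    exact lt_irrefl _ h1
  have h2 : 0 < ⟪∑ y ∈ X, (y - v), ∑ y ∈ X, (y - v)⟫ := real_inner_self_pos.2 hsum
  have h3 : ⟪∑ y ∈ X, (y - v), ∑ y ∈ X, (y - v)⟫ = (X.card : ℝ) * (s ^ 2 + (X.card - 1) * (κ v * s ^ 2)) := by
    rw [sum_inner]
    have h4 : ∀ y ∈ X, ⟪y - v, ∑ z ∈ X, (z - v)⟫ = s ^ 2 + ((X.card : ℝ) - 1) * (κ v * s ^ 2) := by
      intro y hy
      rw [inner_sum, ← Finset.add_sum_erase X _ hy]
      congr 1
      · exact dist_inner (hdist v y ((hX y).1 hy))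
      · rw [Finset.sum_congr rfl (g := fun _ => κ v * s ^ 2)]
        · rw [Finset.sum_const, Finset.card_erase_of_mem hy, nsmul_eq_mul, Nat.cast_sub (by omega)]
          simp
        · intro z hz
          exact (hang v y z ((hX y).1 hy) ((hX z).1 (Finset.mem_of_mem_erase hz))
            (Finset.ne_of_mem_erase hz).symm).1
    rw [Finset.sum_congr rfl h4, Finset.sum_const, nsmul_eq_mul]
  rw [h3, hXc] at h2
  have s2 : 0 < s ^ 2 := by positivity
  have hD : (0 : ℝ) < ((d + 5 : ℕ) : ℝ) := by positivity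
  have h5 : 0 < s ^ 2 + (((d + 5 : ℕ) : ℝ) - 1) * (κ v * s ^ 2) := pos_of_mul_pos_right h2 hD.le
  have h6 : 0 < s ^ 2 * (1 + (((d + 5 : ℕ) : ℝ) - 1) * κ v) := by nlinarith
  have h7 : 0 < 1 + (((d + 5 : ℕ) : ℝ) - 1) * κ v := pos_of_mul_pos_right h6 s2.le
  by_contra h8
  push Not at h8
  have h9 : (4 : ℝ) ≤ ((d + 5 : ℕ) : ℝ) - 1 := by
    push_cast
    have : (0 : ℝ) ≤ d := Nat.cast_nonneg d
    linarith
  nlinarith

end Pool.Agent.T9h89.NK
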