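import Pool.Agent.T9h98.NK.SpecS

/-!
# Project NK (MP_727bc7_co), STEP, piece C1
-/

set_option autoImplicit false

open Set
open scoped RealInnerProductSpace

namespace Pool.Agent.T9h89.NK

open Pool.Agent.T9h98.DC Pool.Agent.T9h44.NK Pool.Agent.T9h98.NK

/-- **C1** -/
theorem c1 : S_EDGE → S_MC → S_C1 := by
  intro hE hMC D P hD hP v w hvw g g' e hC hS
  obtain ⟨y, -, -, hcor, -⟩ := hC.two w hvw
  have hg' : g' = -(1 - g) / 2 := (hMC D P (by omega) hP v w hvw g e g').1 hC hS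
  obtain ⟨z, hz, ⟨α, β, hα, hβ, hzeq⟩, -⟩ := hE D P hP v w y hcor
  have hwv : Adj P w v := hz.1
  have hwz : Adj P w z := hz.2.1
  have hvz : v ≠ z := hz.2.2.1
  have he := hS.epos
  have h1 : ⟪v - w, z - w⟫ = g' * e ^ 2 := (hS.cor v z hwv hwz hvz).2
  have h2 : ‖v - w‖ = e := hS.len v hwv
  have h3 : ‖z - w‖ = e := hS.len z hwz
  have h4 : ⟪w - v, y - v⟫ = g * (‖w - v‖ * ‖y - v‖) := hC.cor w y hcor
  have h5 : ‖w - v‖ = e := by rw [norm_sub_rev, h2]
  rw [h5] at h4
  set t : ℝ := ‖y - v‖ with ht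
  have htp : 0 < t := by
    rw [ht, norm_pos_iff, sub_ne_zero]
    exact hcor.2.1.1.symm
  have hzw : z - w = (α - 1) • (w - v) + β • (y - v) := by
    have : z - w = (z - v) - (w - v) := by abel
    rw [this, hzeq, sub_smul, one_smul]
    abel
  have hpp : ⟪w - v, w - v⟫ = e ^ 2 := by rw [real_inner_self_eq_norm_sq, h5]
  have hqq : ⟪y - v, y - v⟫ = t ^ 2 := by rw [real_inner_self_eq_norm_sq]
  have k1 : (α - 1) * e ^ 2 + β * (g * (e * t)) = -g' * e ^ 2 := by
    have h6 : v - w = -(w - v) := by abel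
    rw [h6, hzw, inner_neg_left, inner_add_right, real_inner_smul_right, real_inner_smul_right, hpp, h4] at h1
    linarith
  have k2 : (α - 1) ^ 2 * e ^ 2 + 2 * (α - 1) * β * (g * (e * t)) + β ^ 2 * t ^ 2 = e ^ 2 := by
    have h6 : ⟪z - w, z - w⟫ = e ^ 2 := by rw [real_inner_self_eq_norm_sq, h3]
    have h7 : ⟪y - v, w - v⟫ = g * (e * t) := by rw [real_inner_comm, h4]
    rw [hzw, inner_add_left, inner_add_right, inner_add_right, real_inner_smul_left,
      real_inner_smul_left, real_inner_smul_left, real_inner_smul_left, real_inner_smul_right,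
      real_inner_smul_right, real_inner_smul_right, real_inner_smul_right, hpp, hqq, h4, h7] at h6
    linarith
  -- normalise
  set q : ℝ := β * t / e with hq
  have hqe : q * e = β * t := div_mul_cancel₀ _ he.ne'
  have hqp : 0 < q := by positivity
  have e2 : 0 < e ^ 2 := by positivity
  have m1 : α - 1 + g * q = -g' := by
    have : e ^ 2 * (α - 1 + g * q + g') = 0 := by
      have h6 : β * (g * (e * t)) = g * (q * e) * e := by rw [hqe]; ring
      rw [h6] at k1
      linarith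
    rcases mul_eq_zero.1 this with h | h
    · exact absurd h e2.ne'
    · linarith
  have m2 : (α - 1) ^ 2 + 2 * (α - 1) * (g * q) + q ^ 2 = 1 := by
    have : e ^ 2 * ((α - 1) ^ 2 + 2 * (α - 1) * (g * q) + q ^ 2 - 1) = 0 := by
      have h6 : 2 * (α - 1) * β * (g * (e * t)) = 2 * (α - 1) * (g * (q * e)) * e := by rw [hqe]; ring
      have h7 : β ^ 2 * t ^ 2 = (q * e) ^ 2 := by rw [hqe]; ring
      rw [h6, h7] at k2
      linarith
    rcases mul_eq_zero.1 this with h | h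
    · exact absurd h e2.ne'
    · linarith
  have m3 : g' ^ 2 + q ^ 2 * (1 - g ^ 2) = 1 := by
    have : g' ^ 2 = (α - 1 + g * q) ^ 2 := by rw [m1]; ring
    rw [this]
    linarith
  -- bounds for `g`
  have hgl : (3 : ℝ) / 4 < g := by
    have h6 := hC.ggt
    have h7 : (8 : ℝ) ≤ D := by exact_mod_cast hD
    have h8 : 2 / (D : ℝ) ≤ 2 / 8 := div_le_div_of_nonneg_left (by norm_num) (by norm_num) h7
    linarith
  have hg1 := hC.glt
  have m4 : g * q ≤ 1 - g' := by linarith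
  have hgq : 0 < g * q := by
    have : 0 < g := by linarith
    positivity
  have m5 : (g * q) ^ 2 ≤ (1 - g') ^ 2 := pow_le_pow_left₀ hgq.le m4 2
  have hgg : 0 < 1 - g ^ 2 := by nlinarith
  have m6 : g ^ 2 * (1 - g' ^ 2) ≤ (1 - g') ^ 2 * (1 - g ^ 2) := by
    have h6 : g ^ 2 * (1 - g' ^ 2) = (g * q) ^ 2 * (1 - g ^ 2) := by
      have : 1 - g' ^ 2 = q ^ 2 * (1 - g ^ 2) := by linarith
      rw [this]
      ring
    rw [h6]
    exact mul_le_mul_of_nonneg_right m5 hgg.le
  rw [hg'] at m6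
  have h9 : g ^ 2 * (1 - (-(1 - g) / 2) ^ 2) = g ^ 2 * (1 + g) * (3 - g) / 4 := by ring
  have h10 : (1 - -(1 - g) / 2) ^ 2 * (1 - g ^ 2) = (3 - g) ^ 2 * (1 - g) * (1 + g) / 4 := by ring
  rw [h9, h10] at m6
  have h11 : 0 < (1 + g) * (3 - g) := by nlinarith
  have h12 : (1 + g) * (3 - g) * (g ^ 2 - (3 - g) * (1 - g)) ≤ 0 := by nlinarith
  have h13 : 0 < g ^ 2 - (3 - g) * (1 - g) := by nlinarith
  nlinarith [mul_pos h11 h13]

end Pool.Agent.T9h89.NK
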