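import Pool.Agent.T9h44.NK.Defs

/-!
# Project NK (MP_727bc7_co): isometries permuting equidistant points; signed permutations
-/

set_option autoImplicit false

open Set
open scoped RealInnerProductSpace

namespace Pool.Agent.T9h89.NK

open Pool.Agent.T9h98.DC Pool.Agent.T9h44.NK

/-- the reflection exchanging `p` and `q` -/
theorem exists_swap {d : ℕ} (p q : E d) : ∃ g : E d ≃ᵢ E d, g p = q ∧ g q = p ∧
    ∀ x, dist x p = dist x q → g x = x := by
  set m : E d := (1 / 2 : ℝ) • (p + q) with hm
  set R : E d ≃ₗᵢ[ℝ] E d := (Submodule.span ℝ {p - q})ᗮ.reflection with hR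
  have hRw : R (p - q) = -(p - q) := Submodule.reflection_orthogonalComplement_singleton_eq_neg _
  let g : E d ≃ᵢ E d := ((IsometryEquiv.subRight m).trans R.toIsometryEquiv).trans (IsometryEquiv.addRight m)
  have hg : ∀ x, g x = R (x - m) + m := fun x => rfl
  have h1 : p - m = (1 / 2 : ℝ) • (p - q) := by
    rw [hm]
    module
  have h2 : q - m = -((1 / 2 : ℝ) • (p - q)) := by
    rw [hm]
    module
  refine ⟨g, ?_, ?_, ?_⟩
  · rw [hg, h1, map_smul, hRw, hm]
    module
  · rw [hg, h2, map_neg, map_smul, hRw, hm]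
    module
  · intro x hx
    have h3 : ⟪p - q, x - m⟫ = 0 := by
      have h4 : ‖x - p‖ ^ 2 = ‖x - q‖ ^ 2 := by
        rw [← dist_eq_norm, ← dist_eq_norm, hx]
      have h5 : x - p = (x - m) - (1 / 2 : ℝ) • (p - q) := by rw [hm]; module
      have h6 : x - q = (x - m) + (1 / 2 : ℝ) • (p - q) := by rw [hm]; module
      rw [h5, h6, norm_sub_sq_real, norm_add_sq_real, real_inner_smul_right] at h4
      rw [real_inner_comm]
      linarith
    have h7 : x - m ∈ (Submodule.span ℝ {p - q})ᗮ := Submodule.mem_orthogonal_singleton_iff_inner_right.2 h3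
    rw [hg, hR, Submodule.reflection_mem_subspace_eq_self h7]
    abel

/-- a permutation of equidistant points extends to an isometry -/
theorem perm_isom {d m : ℕ} (v : Fin m → E d) (s : ℝ) (h : ∀ i j, i ≠ j → dist (v i) (v j) = s)
    (τ : Equiv.Perm (Fin m)) : ∃ g : E d ≃ᵢ E d, ∀ i, g (v i) = v (τ i) := by
  classical
  induction τ using Equiv.Perm.swap_induction_on with
  | one => exact ⟨IsometryEquiv.refl _, fun i => rfl⟩
  | swap_mul f x y hxy ih =>
    obtain ⟨g, hg⟩ := ih
    obtain ⟨k, hk1, hk2, hk3⟩ := exists_swap (v x) (v y)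
    refine ⟨g.trans k, fun i => ?_⟩
    show k (g (v i)) = _
    rw [hg, Equiv.Perm.mul_apply]
    by_cases h1 : f i = x
    · rw [h1, Equiv.swap_apply_left, hk1]
    · by_cases h2 : f i = y
      · rw [h2, Equiv.swap_apply_right, hk2]
      · rw [Equiv.swap_apply_of_ne_of_ne h1 h2]
        apply hk3
        rw [h _ _ h1, h _ _ h2]

end Pool.Agent.T9h89.NK
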